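import Pool.Agent.Helper43.LO.Goals

/-!
# Project LO: the exact expansion
-/

set_option autoImplicit false

namespace Pool.Agent.Helper96.LO

open Finset Pool.Agent.Helper33.Schur Pool.Agent.Helper43.LO

theorem prs_sum (N : ℕ) (g : ℕ → ℕ → ℤ) :
    ∑ q ∈ prs N, g q.1 q.2 = ∑ x ∈ Icc 1 N, ∑ y ∈ Icc 1 (N - x), g x y := by
  unfold prs
  rw [sum_filter, sum_product]
  refine sum_congr rfl fun x hx => ?_
  rw [← sum_filter]
  refine sum_congr ?_ fun _ _ => rfl
  ext y
  simp only [mem_filter, mem_Icc] at hx ⊢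
  omega

theorem prs_sum' (N : ℕ) (g : ℕ → ℕ → ℤ) :
    ∑ q ∈ prs N, g q.1 q.2 = ∑ y ∈ Icc 1 N, ∑ x ∈ Icc 1 (N - y), g x y := by
  unfold prs
  rw [sum_filter, sum_product_right]
  refine sum_congr rfl fun y hy => ?_
  rw [← sum_filter]
  refine sum_congr ?_ fun _ _ => rfl
  ext x
  simp only [mem_filter, mem_Icc] at hy ⊢
  omega

theorem prs_sum_add (N : ℕ) (g : ℕ → ℕ → ℤ) :
    ∑ q ∈ prs N, g q.1 q.2 = ∑ z ∈ Icc 1 N, ∑ x ∈ Icc 1 (z - 1), g x (z - x) := by
  rw [sum_sigma']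
  refine sum_bij' (fun q _ => (⟨q.1 + q.2, q.1⟩ : Σ _ : ℕ, ℕ)) (fun s _ => (s.2, s.1 - s.2))
    ?_ ?_ ?_ ?_ ?_
  · rintro ⟨x, y⟩ hq
    simp only [prs, mem_filter, mem_product, mem_Icc, mem_sigma] at hq ⊢
    omega
  · rintro ⟨z, x⟩ hq
    simp only [prs, mem_filter, mem_product, mem_Icc, mem_sigma] at hq ⊢
    omega
  · rintro ⟨x, y⟩ hq
    simp
  · rintro ⟨z, x⟩ hq
    simp only [mem_Icc, mem_sigma] at hq
    have h1 : x + (z - x) = z := by omega
    simp only [h1]
  · rintro ⟨x, y⟩ hq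
    simp

theorem ind_mul (f : ℕ → Fin 3) (c : Fin 3) (x y : ℕ) :
    ind f c x * ind f c y = if f x = c ∧ f y = c then 1 else 0 := by
  unfold ind
  by_cases h1 : f x = c <;> by_cases h2 : f y = c <;> simp [h1, h2]

theorem W_eq (N : ℕ) (f : ℕ → Fin 3) (c : Fin 3) (z : ℕ) :
    (W N f c z : ℤ) = ∑ x ∈ Icc 1 (z - 1), ind f c x * ind f c (z - x) +
      2 * ∑ x ∈ Icc 1 (N - z), ind f c x * ind f c (x + z) := by
  unfold W
  push_cast
  rw [card_filter, card_filter]
  push_cast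
  congr 1
  · exact sum_congr rfl fun x _ => (ind_mul f c x (z - x)).symm
  · congr 1
    exact sum_congr rfl fun x _ => (ind_mul f c x (x + z)).symm

theorem F_eq (N : ℕ) (χ : ℕ → Fin 3) :
    (F N χ : ℤ) = ∑ q ∈ prs N, ∑ c : Fin 3, ind χ c q.1 * ind χ c q.2 * ind χ c (q.1 + q.2) := by
  have h1 : F N χ = ((prs N).filter
      (fun q : ℕ × ℕ => χ q.1 = χ q.2 ∧ χ q.2 = χ (q.1 + q.2))).card := by
    unfold F prs
    rw [filter_filter]
  rw [h1, card_filter]
  push_cast
  refine sum_congr rfl fun q _ => ?_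
  unfold ind
  generalize χ q.1 = a
  generalize χ q.2 = b
  generalize χ (q.1 + q.2) = d
  revert a b d
  decide

theorem h_eq (χ f : ℕ → Fin 3) (c : Fin 3) (x : ℕ) :
    ind χ c x = ind f c x + h χ f c x := by
  unfold ind h
  ring

theorem goalEXP : G_EXP := by
  intro N χ f
  have hfirst : ∑ q ∈ prs N, ∑ c : Fin 3,
      (h χ f c q.1 * (ind f c q.2 * ind f c (q.1 + q.2))
        + h χ f c q.2 * (ind f c q.1 * ind f c (q.1 + q.2))
        + h χ f c (q.1 + q.2) * (ind f c q.1 * ind f c q.2)) =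
      ∑ z ∈ dif N χ f, ((W N f (χ z) z : ℤ) - W N f (f z) z) := by
    have hA : ∀ c : Fin 3, ∑ q ∈ prs N, h χ f c q.1 * (ind f c q.2 * ind f c (q.1 + q.2)) =
        ∑ z ∈ Icc 1 N, h χ f c z * ∑ x ∈ Icc 1 (N - z), ind f c x * ind f c (x + z) := by
      intro c
      rw [prs_sum N fun x y => h χ f c x * (ind f c y * ind f c (x + y))]
      refine sum_congr rfl fun z _ => ?_
      rw [mul_sum]
      exact sum_congr rfl fun x _ => by rw [add_comm z x]
    have hB : ∀ c : Fin 3, ∑ q ∈ prs N, h χ f c q.2 * (ind f c q.1 * ind f c (q.1 + q.2)) =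
        ∑ z ∈ Icc 1 N, h χ f c z * ∑ x ∈ Icc 1 (N - z), ind f c x * ind f c (x + z) := by
      intro c
      rw [prs_sum' N fun x y => h χ f c y * (ind f c x * ind f c (x + y))]
      refine sum_congr rfl fun z _ => ?_
      rw [mul_sum]
    have hC : ∀ c : Fin 3, ∑ q ∈ prs N, h χ f c (q.1 + q.2) * (ind f c q.1 * ind f c q.2) =
        ∑ z ∈ Icc 1 N, h χ f c z * ∑ x ∈ Icc 1 (z - 1), ind f c x * ind f c (z - x) := by
      intro c
      rw [prs_sum_add N fun x y => h χ f c (x + y) * (ind f c x * ind f c y)]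
      refine sum_congr rfl fun z _ => ?_
      rw [mul_sum]
      refine sum_congr rfl fun x hx => ?_
      have h1 : x + (z - x) = z := by
        rw [mem_Icc] at hx
        omega
      rw [h1]
    rw [sum_comm]
    have h1 : ∀ c : Fin 3, ∑ q ∈ prs N, (h χ f c q.1 * (ind f c q.2 * ind f c (q.1 + q.2))
        + h χ f c q.2 * (ind f c q.1 * ind f c (q.1 + q.2))
        + h χ f c (q.1 + q.2) * (ind f c q.1 * ind f c q.2)) =
        ∑ z ∈ Icc 1 N, h χ f c z * (W N f c z : ℤ) := by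
      intro c
      rw [sum_add_distrib, sum_add_distrib, hA, hB, hC, ← sum_add_distrib, ← sum_add_distrib]
      refine sum_congr rfl fun z _ => ?_
      rw [W_eq]
      ring
    rw [sum_congr rfl fun c _ => h1 c, sum_comm]
    unfold dif
    rw [sum_filter]
    refine sum_congr rfl fun z _ => ?_
    have h2 : ∀ (w : Fin 3 → ℤ) (a b : Fin 3),
        ∑ c : Fin 3, ((if a = c then 1 else 0) - (if b = c then 1 else 0)) * w c = w a - w b := by
      intro w a b
      have h3 : ∀ c : Fin 3, ((if a = c then (1 : ℤ) else 0) - (if b = c then 1 else 0)) * w c =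
          (if a = c then w c else 0) - (if b = c then w c else 0) := by
        intro c
        split_ifs <;> ring
      rw [sum_congr rfl fun c _ => h3 c, sum_sub_distrib]
      simp
    have h4 := h2 (fun c => (W N f c z : ℤ)) (χ z) (f z)
    unfold h
    rw [h4]
    split_ifs with h5
    · rfl
    · rw [not_not.1 h5, sub_self]
  rw [F_eq, F_eq, ← hfirst]
  unfold Q2
  rw [← sum_add_distrib, ← sum_add_distrib]
  refine sum_congr rfl fun q _ => ?_
  rw [← sum_add_distrib, ← sum_add_distrib]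
  refine sum_congr rfl fun c _ => ?_
  rw [h_eq χ f c q.1, h_eq χ f c q.2, h_eq χ f c (q.1 + q.2)]
  ring

end Pool.Agent.Helper96.LO
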